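import Pool.Agent.Lib.Pk.Ops

/-!
# Strided vectors, broadcasting along the inner axis, maxima along an axis, compression

`SRep v k m X f`: the fields `0, k, 2k, …, (m-1)k` of `X` are `f 0, …, f (m-1)`, all others are `0`.
-/

set_option autoImplicit false

namespace Pk

theorem regroup {w : ℕ} (k m : ℕ) (F : ℕ → ℕ) :
    pk (w * k) m (fun j => pk w k (fun i => F (k * j + i))) = pk w (k * m) F := by
  induction m generalizing F with
  | zero => simp
  | succ m ih =>
    rw [pk_succ]
    have e : k * (m + 1) = k + k * m := by ring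
    rw [e, pk_append, ← ih (fun i => F (k + i))]
    congr 1
    · exact pk_congr fun i _ => by simp
    · congr 1
      refine pk_congr fun j _ => pk_congr fun i _ => ?_
      congr 1
      ring

/-- A strided vector: `m` values at distance `k`. -/
structure SRep (v k m X : ℕ) (f : ℕ → ℕ) : Prop where
  eq : X = pk ((v + 1) * k) m f
  lt : ∀ i < m, f i < 2 ^ v

variable {v n k m : ℕ} {X Y : ℕ} {f g F : ℕ → ℕ}

theorem SRep.congr (h : SRep v k m X f) (e : ∀ i < m, f i = g i) : SRep v k m X g :=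
  ⟨h.eq.trans (pk_congr e), fun i hi => (e i hi) ▸ h.lt i hi⟩

theorem pk_single {w : ℕ} (hk : 0 < k) (a : ℕ) : pk w k (fun i => if i = 0 then a else 0) = a := by
  obtain ⟨k, rfl⟩ := Nat.exists_eq_succ_of_ne_zero hk.ne'
  rw [Nat.succ_eq_add_one, pk_succ]
  have : pk w k (fun i => if i + 1 = 0 then a else 0) = pk w k (fun _ => 0 * 1) :=
    pk_congr fun i _ => by simp
  rw [this, ← pk_mul]
  simp

/-- A strided vector as a dense vector with zeros. -/
theorem SRep.rep (hk : 0 < k) (h : SRep v k m X f) :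
    Rep v (k * m) X (fun i => if i % k = 0 then f (i / k) else 0) := by
  refine ⟨?_, fun i hi => ?_⟩
  · rw [h.eq, ← regroup]
    refine pk_congr fun j _ => ?_
    rw [← pk_single (w := v + 1) hk (f j)]
    refine pk_congr fun i hi => ?_
    simp only [Nat.mul_add_mod, Nat.mod_eq_of_lt hi]
    by_cases h0 : i = 0
    · subst h0
      simp [Nat.mul_div_cancel_left _ hk]
    · simp [h0]
  · have : 0 < 2 ^ v := by positivity
    split_ifs
    · exact h.lt _ ((Nat.div_lt_iff_lt_mul hk).2 (by rwa [mul_comm]))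
    · exact this

/-- Broadcasting along a new inner axis. -/
theorem SRep.spread (hk : 0 < k) (h : SRep v k m X f) :
    Rep v (k * m) (X * Pk.rep (v + 1) k) (fun i => f (i / k)) := by
  refine ⟨?_, fun i hi => h.lt _ ((Nat.div_lt_iff_lt_mul hk).2 (by rwa [mul_comm]))⟩
  rw [h.eq, mul_comm, pk_mul, ← regroup]
  refine pk_congr fun j _ => ?_
  rw [mul_comm, const_eq (Nat.succ_pos v)]
  refine pk_congr fun i hi => ?_
  rw [Nat.mul_add_div hk, Nat.div_eq_of_lt hi, add_zero]

theorem land_full_pk {w : ℕ} (hk : 0 < k) {h : ℕ → ℕ} (hh : ∀ i < k, h i < 2 ^ w) :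
    pk w k h &&& (2 ^ w - 1) = h 0 := by
  rw [Nat.and_two_pow_sub_one_eq_mod]
  obtain ⟨k, rfl⟩ := Nat.exists_eq_succ_of_ne_zero hk.ne'
  rw [Nat.succ_eq_add_one, pk_succ, Nat.add_mul_mod_self_left]
  exact Nat.mod_eq_of_lt (hh 0 (Nat.succ_pos _))

/-- The mask of the fields `0, k, …, (m-1)k`. -/
def smask (v k m : ℕ) : ℕ := (2 ^ (v + 1) - 1) * rep ((v + 1) * k) m

/-- Selecting every `k`-th field. -/
theorem Rep.stride (hk : 0 < k) (h : Rep v (k * m) X F) :
    SRep v k m (X &&& smask v k m) (fun j => F (k * j)) := by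
  refine ⟨?_, fun i hi => h.lt _ (Nat.mul_lt_mul_of_pos_left hi hk)⟩
  unfold smask
  rw [h.eq, ← regroup, const_eq (Nat.mul_pos (Nat.succ_pos v) hk), pk_land]
  · refine pk_congr fun j hj => ?_
    rw [land_full_pk hk]
    · simp
    · intro i hi
      exact h.lt' _ (by
        calc k * j + i < k * j + k := by omega
          _ = k * (j + 1) := by ring
          _ ≤ k * m := Nat.mul_le_mul_left _ hj)
  · intro j hj
    exact pk_lt fun i hi => h.lt' _ (by
        calc k * j + i < k * j + k := by omega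
          _ = k * (j + 1) := by ring
          _ ≤ k * m := Nat.mul_le_mul_left _ hj)
  · intro j _
    have h1 : 0 < 2 ^ (v + 1) := by positivity
    have h2 : 2 ^ (v + 1) ≤ 2 ^ ((v + 1) * k) :=
      Nat.pow_le_pow_right (by norm_num) (Nat.le_mul_of_pos_right _ hk)
    omega

/-! ### Maxima over windows -/

/-- Successive maxima with shifted copies. -/
def window (v : ℕ) (G : ℕ) : ℕ → List ℕ → ℕ
  | X, [] => X
  | X, s :: l => window v G (vmax v G X (X >>> ((v + 1) * s))) l

theorem Rep.shift0 (hX : Rep v n X f) (s : ℕ) :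
    Rep v n (X >>> ((v + 1) * s)) (fun i => if s + i < n then f (s + i) else 0) := by
  have h0 : ∀ i < n, (if s + i < n then f (s + i) else 0) < 2 ^ v := fun i _ => by
    split_ifs with h
    · exact hX.lt _ h
    · positivity
  refine ⟨?_, h0⟩
  by_cases hs : s ≤ n
  · have h1 := (hX.shiftRight s hs).eq
    rw [h1]
    obtain ⟨k, rfl⟩ := Nat.exists_eq_add_of_le hs
    rw [Nat.add_sub_cancel_left, add_comm s k, pk_append]
    have e1 : pk (v + 1) s (fun i => if s + (k + i) < k + s then f (s + (k + i)) else 0)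
        = pk (v + 1) s (fun _ => 0) := pk_congr fun i _ => by rw [if_neg (by omega)]
    rw [e1, ← (Rep.zero (v := v) (n := s)).eq, mul_zero, add_zero]
    exact pk_congr fun i hi => by rw [if_pos (by omega)]
  · have e1 : pk (v + 1) n (fun i => if s + i < n then f (s + i) else 0)
        = pk (v + 1) n (fun _ => 0) := pk_congr fun i _ => by rw [if_neg (by omega)]
    rw [e1, ← (Rep.zero (v := v) (n := n)).eq, Nat.shiftRight_eq_div_pow]
    apply Nat.div_eq_of_lt
    rw [hX.eq]
    refine lt_of_lt_of_le (pk_lt hX.lt') (Nat.pow_le_pow_right (by norm_num) ?_)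
    exact Nat.mul_le_mul_left _ (by omega)

/-- The shifts `l` extend a window of `c` consecutive multiples of `d`. -/
def goodShifts (d : ℕ) : ℕ → List ℕ → ℕ → Prop
  | c, [], c' => c = c'
  | c, s :: l, c' => ∃ t, s = d * t ∧ t ≤ c ∧ goodShifts d (c + t) l c'

/-- Executable form. -/
def goodShiftsB (d : ℕ) : ℕ → List ℕ → ℕ → Bool
  | c, [], c' => Nat.beq c c'
  | c, s :: l, c' => Nat.beq s (d * (s / d)) && (Nat.ble (s / d) c && goodShiftsB d (c + s / d) l c')

theorem goodShifts_of_bool {d : ℕ} {l : List ℕ} {c c' : ℕ} (h : goodShiftsB d c l c' = true) :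
    goodShifts d c l c' := by
  induction l generalizing c with
  | nil => exact Nat.eq_of_beq_eq_true h
  | cons s l ih =>
    simp only [goodShiftsB, Bool.and_eq_true] at h
    exact ⟨s / d, Nat.eq_of_beq_eq_true h.1, Nat.le_of_ble_eq_true h.2.1, ih h.2.2⟩

/-- The result dominates `f` at the positions `i, i + d, …, i + (c'-1) d`. -/
theorem Rep.window {d c c' : ℕ} {l : List ℕ} (hX : Rep v n X g)
    (hg : ∀ i < n, ∀ t < c, i + d * t < n → f (i + d * t) ≤ g i)
    (hl : goodShifts d c l c') :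
    ∃ g', Rep v n (window v (guard v n) X l) g' ∧
      ∀ i < n, ∀ t < c', i + d * t < n → f (i + d * t) ≤ g' i := by
  induction l generalizing c X g with
  | nil =>
    cases hl
    exact ⟨g, hX, hg⟩
  | cons s l ih =>
    obtain ⟨t0, rfl, ht0, hl⟩ := hl
    refine ih (hX.vmax (hX.shift0 (d * t0))) (fun i hi t ht hit => ?_) hl
    by_cases h : t < c
    · exact le_trans (hg i hi t h hit) (le_max_left _ _)
    · have h1 : t0 ≤ t := by omega
      obtain ⟨u, rfl⟩ := Nat.exists_eq_add_of_le h1
      have h2 : i + d * (t0 + u) = (d * t0 + i) + d * u := by ring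
      rw [h2] at hit ⊢
      have h3 : d * t0 + i < n := lt_of_le_of_lt (Nat.le_add_right _ _) hit
      refine le_trans (hg _ h3 u (by omega) hit) ?_
      rw [if_pos h3]
      exact le_max_right _ _

/-- Maximum over the inner axis (of length `k`), the result is strided. -/
theorem Rep.maxInner {l : List ℕ} (hk : 0 < k) (hX : Rep v (k * m) X f)
    (hl : goodShifts 1 1 l k) :
    ∃ g, SRep v k m (Pk.window v (guard v (k * m)) X l &&& smask v k m) g ∧
      ∀ j < m, ∀ i < k, f (k * j + i) ≤ g j := by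
  obtain ⟨g', h1, h2⟩ := Rep.window (d := 1) (c := 1) (f := f) hX (fun i _ t ht _ => by
    obtain rfl : t = 0 := by omega
    simp) hl
  refine ⟨_, h1.stride hk, fun j hj i hi => ?_⟩
  have h3 : k * j + i < k * m := by
    calc k * j + i < k * j + k := by omega
      _ = k * (j + 1) := by ring
      _ ≤ k * m := Nat.mul_le_mul_left _ hj
  have := h2 (k * j) (by omega) i hi (by omega)
  simpa using this

/-- Maximum over the outer axis (of length `k`, blocks of `m` fields), by halving:
`c` is the number of blocks kept. -/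
def halve (v G m k c X : ℕ) : ℕ :=
  vmax v (G % 2 ^ ((v + 1) * (m * c))) (X % 2 ^ ((v + 1) * (m * c))) (X >>> ((v + 1) * (m * (k - c))))

theorem guard_mod {N : ℕ} (h : n ≤ N) : guard v N % 2 ^ ((v + 1) * n) = guard v n := by
  rw [guard_eq, guard_eq]
  exact pk_mod (fun i _ => by rw [two_pow_succ']; have : 0 < 2 ^ v := by positivity
                              omega) h

theorem Rep.halve {N c : ℕ} (hX : Rep v (m * k) X f) (hc : c ≤ k) (hc2 : k ≤ 2 * c)
    (hN : m * c ≤ N) :
    ∃ g, Rep v (m * c) (halve v (guard v N) m k c X) g ∧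
      ∀ i < m, ∀ j < k, ∃ j' < c, f (m * j + i) ≤ g (m * j' + i) := by
  have hmc : m * c ≤ m * k := Nat.mul_le_mul_left _ hc
  have h1 := hX.take hmc
  have h2 := hX.shiftRight (m * (k - c)) (Nat.mul_le_mul_left _ (by omega))
  have e : m * k - m * (k - c) = m * c := by
    rw [← Nat.mul_sub]; congr 1; omega
  rw [e] at h2
  have h3 : Rep v (m * c) (Pk.halve v (guard v N) m k c X)
      (fun i => max (f i) (f (m * (k - c) + i))) := by
    unfold Pk.halve
    rw [guard_mod hN]
    exact h1.vmax h2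
  refine ⟨_, h3, fun i hi j hj => ?_⟩
  · by_cases h : j < c
    · exact ⟨j, h, le_max_left _ _⟩
    · refine ⟨j - (k - c), by omega, le_trans (le_of_eq ?_) (le_max_right _ _)⟩
      congr 1
      have : m * j = m * (k - c) + m * (j - (k - c)) := by
        rw [← Nat.mul_add]; congr 1; omega
      omega

/-- Halving repeatedly. -/
def halves (v G m : ℕ) : ℕ → List ℕ → ℕ → ℕ
  | _, [], X => X
  | k, c :: l, X => halves v G m c l (halve v G m k c X)

/-- The list of the lengths is admissible and ends with `1`. -/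
def goodHalves : ℕ → List ℕ → Bool
  | k, [] => Nat.beq k 1
  | k, c :: l => Nat.ble c k && (Nat.ble k (2 * c) && goodHalves c l)

theorem Rep.halves {N : ℕ} {l : List ℕ} (hX : Rep v (m * k) X f) (hl : goodHalves k l = true)
    (hN : m * k ≤ N) :
    ∃ g, Rep v m (halves v (guard v N) m k l X) g ∧
      ∀ i < m, ∀ j < k, f (m * j + i) ≤ g i := by
  induction l generalizing k X f with
  | nil =>
    obtain rfl : k = 1 := Nat.eq_of_beq_eq_true hl
    rw [mul_one] at hX
    refine ⟨f, hX, fun i _ j hj => ?_⟩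
    obtain rfl : j = 0 := by omega
    simp
  | cons c l ih =>
    simp only [goodHalves, Bool.and_eq_true] at hl
    have hc := Nat.le_of_ble_eq_true hl.1
    have hc2 := Nat.le_of_ble_eq_true hl.2.1
    have hmc : m * c ≤ m * k := Nat.mul_le_mul_left _ hc
    obtain ⟨g, h1, h2⟩ := hX.halve hc hc2 (hmc.trans hN)
    obtain ⟨g', h3, h4⟩ := ih h1 hl.2.2 (hmc.trans hN)
    refine ⟨g', h3, fun i hi j hj => ?_⟩
    obtain ⟨j', hj', hle⟩ := h2 i hi j hj
    exact hle.trans (h4 i hi j' hj')

/-! ### Changing strides -/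

/-- Compressing a strided vector to a dense one by one division. -/
def compress (v k X : ℕ) : ℕ := X % (2 ^ ((v + 1) * k) - 2 ^ (v + 1))

theorem SRep.compress (h : SRep v k m X f) (hm : m + 1 ≤ k) (hk : 2 ≤ k) :
    Rep v m (compress v k X) f := by
  refine ⟨?_, h.lt⟩
  have h2 : 2 ^ (v + 1) ≤ 2 ^ ((v + 1) * (k - 1)) :=
    Nat.pow_le_pow_right (by norm_num) (Nat.le_mul_of_pos_right _ (by omega))
  have h3 : 2 ^ ((v + 1) * k) = 2 ^ (v + 1) * 2 ^ ((v + 1) * (k - 1)) := by
    rw [← pow_add]; congr 1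
    obtain ⟨k, rfl⟩ := Nat.exists_eq_add_of_le hk
    rw [show 2 + k - 1 = 1 + k by omega]
    ring
  have h4 : 2 * 2 ^ ((v + 1) * (k - 1)) ≤ 2 ^ ((v + 1) * k) := by
    rw [h3]
    apply Nat.mul_le_mul_right
    calc 2 = 2 ^ 1 := rfl
      _ ≤ 2 ^ (v + 1) := Nat.pow_le_pow_right (by norm_num) (by omega)
  have hmod : ∀ (m : ℕ) (f : ℕ → ℕ), pk ((v + 1) * k) m f ≡ pk (v + 1) m f
      [MOD (2 ^ ((v + 1) * k) - 2 ^ (v + 1))] := by
    intro m
    induction m with
    | zero => intro f; rfl
    | succ m ih =>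
      intro f
      rw [pk_succ, pk_succ]
      apply Nat.ModEq.add_left
      have e : 2 ^ ((v + 1) * k) ≡ 2 ^ (v + 1) [MOD (2 ^ ((v + 1) * k) - 2 ^ (v + 1))] := by
        have : 2 ^ ((v + 1) * k) = 2 ^ (v + 1) + (2 ^ ((v + 1) * k) - 2 ^ (v + 1)) := by omega
        conv_lhs => rw [this]
        exact Nat.add_modEq_right
      exact Nat.ModEq.mul e (ih _)
  unfold Pk.compress
  rw [h.eq]
  have hlt : pk (v + 1) m f < 2 ^ ((v + 1) * k) - 2 ^ (v + 1) := by
    have h5 : pk (v + 1) m f < 2 ^ ((v + 1) * m) := pk_lt fun i hi => by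
      have := h.lt i hi
      rw [two_pow_succ']
      omega
    have h6 : 2 ^ ((v + 1) * m) ≤ 2 ^ ((v + 1) * (k - 1)) :=
      Nat.pow_le_pow_right (by norm_num) (Nat.mul_le_mul_left _ (by omega))
    omega
  have := hmod m f
  rw [Nat.ModEq, Nat.mod_eq_of_lt hlt] at this
  exact this

/-- Expanding a dense vector (`m ≤ k - 1` values) to stride `k`. -/
def expand (v k m X : ℕ) : ℕ := (X * rep ((v + 1) * (k - 1)) m) &&& smask v k m

theorem Rep.pad {N : ℕ} (h : Rep v n X f) (hN : n ≤ N) :
    Rep v N X (fun i => if i < n then f i else 0) := by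
  refine ⟨?_, fun i _ => ?_⟩
  · obtain ⟨k, rfl⟩ := Nat.exists_eq_add_of_le hN
    rw [pk_append]
    have e1 : pk (v + 1) k (fun i => if n + i < n then f (n + i) else 0)
        = pk (v + 1) k (fun _ => 0) := pk_congr fun i _ => by rw [if_neg (by omega)]
    rw [e1, ← (Rep.zero (v := v) (n := k)).eq, mul_zero, add_zero, h.eq]
    exact pk_congr fun i hi => by rw [if_pos hi]
  · split_ifs with h1
    · exact h.lt _ h1
    · positivity

theorem Rep.expand (h : Rep v m X f) (hm : m + 1 ≤ k) (hk : 2 ≤ k) :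
    SRep v k m (expand v k m X) f := by
  have h1 := h.pad (show m ≤ k - 1 by omega)
  have h2 := h1.tile (show 0 < k - 1 by omega) m
  have h3 := h2.pad (show (k - 1) * m ≤ k * m from Nat.mul_le_mul_right _ (by omega))
  refine (h3.stride (show 0 < k by omega)).congr fun j hj => ?_
  have e : k * j = (k - 1) * j + j := by
    obtain ⟨k, rfl⟩ := Nat.exists_eq_add_of_le hk
    rw [show 2 + k - 1 = 1 + k by omega]
    ring
  have h4 : k * j < (k - 1) * m := by
    rw [e]
    calc (k - 1) * j + j < (k - 1) * j + (k - 1) := by omega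
      _ = (k - 1) * (j + 1) := by ring
      _ ≤ (k - 1) * m := Nat.mul_le_mul_left _ hj
  have h5 : k * j % (k - 1) = j := by
    rw [e, Nat.mul_add_mod, Nat.mod_eq_of_lt (by omega)]
  rw [if_pos h4, h5, if_pos hj]

end Pk
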