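import Mathlib.Tactic
import Mathlib.Data.Nat.Bitwise

/-!
# Packed vectors

`pk w n f` is the natural number whose binary fields of width `w` are `f 0, …, f (n - 1)`.
All operations below are single GMP operations for the kernel, so that a kernel computation can
work on thousands of fields at once.
-/

set_option autoImplicit false

namespace Pk

/-- The number with the fields `f 0, …, f (n-1)` of width `w`. -/
def pk (w : ℕ) : ℕ → (ℕ → ℕ) → ℕ
  | 0, _ => 0
  | n + 1, f => f 0 + 2 ^ w * pk w n (fun i => f (i + 1))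

variable {w : ℕ}

@[simp] theorem pk_zero (f : ℕ → ℕ) : pk w 0 f = 0 := rfl

theorem pk_succ (n : ℕ) (f : ℕ → ℕ) :
    pk w (n + 1) f = f 0 + 2 ^ w * pk w n (fun i => f (i + 1)) := rfl

theorem pk_congr {n : ℕ} {f g : ℕ → ℕ} (h : ∀ i < n, f i = g i) : pk w n f = pk w n g := by
  induction n generalizing f g with
  | zero => rfl
  | succ n ih =>
    rw [pk_succ, pk_succ, h 0 (Nat.succ_pos _),
      ih (fun i hi => h (i + 1) (Nat.succ_lt_succ hi))]

theorem pk_add (n : ℕ) (f g : ℕ → ℕ) : pk w n f + pk w n g = pk w n (fun i => f i + g i) := by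
  induction n generalizing f g with
  | zero => rfl
  | succ n ih =>
    rw [pk_succ, pk_succ, pk_succ, ← ih]
    ring

theorem pk_mul (n c : ℕ) (f : ℕ → ℕ) : c * pk w n f = pk w n (fun i => c * f i) := by
  induction n generalizing f with
  | zero => rfl
  | succ n ih =>
    rw [pk_succ, pk_succ, ← ih]
    ring

theorem pk_sub {n : ℕ} {f g : ℕ → ℕ} (h : ∀ i < n, g i ≤ f i) :
    pk w n f - pk w n g = pk w n (fun i => f i - g i) := by
  have : pk w n g + pk w n (fun i => f i - g i) = pk w n f := by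
    rw [pk_add]
    exact pk_congr fun i hi => Nat.add_sub_cancel' (h i hi)
  omega

theorem pk_lt {n : ℕ} {f : ℕ → ℕ} (h : ∀ i < n, f i < 2 ^ w) : pk w n f < 2 ^ (w * n) := by
  induction n generalizing f with
  | zero => simp
  | succ n ih =>
    rw [pk_succ]
    have h0 := h 0 (Nat.succ_pos _)
    have h1 := ih (f := fun i => f (i + 1)) (fun i hi => h (i + 1) (Nat.succ_lt_succ hi))
    have : 2 ^ (w * (n + 1)) = 2 ^ w * 2 ^ (w * n) := by rw [← pow_add]; congr 1; ring
    rw [this]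
    calc f 0 + 2 ^ w * pk w n (fun i => f (i + 1))
        < 2 ^ w + 2 ^ w * pk w n (fun i => f (i + 1)) := by omega
      _ = 2 ^ w * (pk w n (fun i => f (i + 1)) + 1) := by ring
      _ ≤ 2 ^ w * 2 ^ (w * n) := Nat.mul_le_mul_left _ h1

theorem pk_append (m n : ℕ) (f : ℕ → ℕ) :
    pk w (m + n) f = pk w m f + 2 ^ (w * m) * pk w n (fun i => f (m + i)) := by
  induction m generalizing f with
  | zero => simp
  | succ m ih =>
    have e : m + 1 + n = (m + n) + 1 := by ring
    rw [e, pk_succ, ih, pk_succ]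
    have e2 : (fun i => f (m + i + 1)) = (fun i => f (m + 1 + i)) := by
      funext i; congr 1; ring
    have e3 : 2 ^ (w * (m + 1)) = 2 ^ w * 2 ^ (w * m) := by rw [← pow_add]; congr 1; ring
    simp only [e2, e3]
    ring

theorem pk_mod {m n : ℕ} {f : ℕ → ℕ} (h : ∀ i < m, f i < 2 ^ w) (hmn : m ≤ n) :
    pk w n f % 2 ^ (w * m) = pk w m f := by
  obtain ⟨k, rfl⟩ := Nat.exists_eq_add_of_le hmn
  rw [pk_append, Nat.add_mul_mod_self_left]
  exact Nat.mod_eq_of_lt (pk_lt h)

theorem pk_div {m n : ℕ} {f : ℕ → ℕ} (h : ∀ i < m, f i < 2 ^ w) :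
    pk w (m + n) f / 2 ^ (w * m) = pk w n (fun i => f (m + i)) := by
  rw [pk_append, Nat.add_mul_div_left _ _ (by positivity), Nat.div_eq_of_lt (pk_lt h), zero_add]

/-- A general combination lemma for bitwise operations. -/
theorem land_add_mul {a b x y : ℕ} (ha : a < 2 ^ w) (hb : b < 2 ^ w) :
    (a + 2 ^ w * x) &&& (b + 2 ^ w * y) = (a &&& b) + 2 ^ w * (x &&& y) := by
  have hab : a &&& b < 2 ^ w := lt_of_le_of_lt Nat.and_le_left ha
  apply Nat.eq_of_testBit_eq
  intro i
  rw [Nat.testBit_and, add_comm a, add_comm b, add_comm (a &&& b),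
    Nat.testBit_two_pow_mul_add _ ha, Nat.testBit_two_pow_mul_add _ hb,
    Nat.testBit_two_pow_mul_add _ hab]
  split_ifs <;> simp [Nat.testBit_and]

theorem lor_add_mul {a b x y : ℕ} (ha : a < 2 ^ w) (hb : b < 2 ^ w) :
    (a + 2 ^ w * x) ||| (b + 2 ^ w * y) = (a ||| b) + 2 ^ w * (x ||| y) := by
  have hab : a ||| b < 2 ^ w := Nat.or_lt_two_pow ha hb
  apply Nat.eq_of_testBit_eq
  intro i
  rw [Nat.testBit_or, add_comm a, add_comm b, add_comm (a ||| b),
    Nat.testBit_two_pow_mul_add _ ha, Nat.testBit_two_pow_mul_add _ hb,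
    Nat.testBit_two_pow_mul_add _ hab]
  split_ifs <;> simp [Nat.testBit_or]

theorem pk_land {n : ℕ} {f g : ℕ → ℕ} (hf : ∀ i < n, f i < 2 ^ w) (hg : ∀ i < n, g i < 2 ^ w) :
    pk w n f &&& pk w n g = pk w n (fun i => f i &&& g i) := by
  induction n generalizing f g with
  | zero => simp
  | succ n ih =>
    rw [pk_succ, pk_succ, pk_succ,
      land_add_mul (hf 0 (Nat.succ_pos _)) (hg 0 (Nat.succ_pos _)),
      ih (fun i hi => hf (i + 1) (Nat.succ_lt_succ hi)) (fun i hi => hg (i + 1) (Nat.succ_lt_succ hi))]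

theorem pk_lor {n : ℕ} {f g : ℕ → ℕ} (hf : ∀ i < n, f i < 2 ^ w) (hg : ∀ i < n, g i < 2 ^ w) :
    pk w n f ||| pk w n g = pk w n (fun i => f i ||| g i) := by
  induction n generalizing f g with
  | zero => simp
  | succ n ih =>
    rw [pk_succ, pk_succ, pk_succ,
      lor_add_mul (hf 0 (Nat.succ_pos _)) (hg 0 (Nat.succ_pos _)),
      ih (fun i hi => hf (i + 1) (Nat.succ_lt_succ hi)) (fun i hi => hg (i + 1) (Nat.succ_lt_succ hi))]

theorem pk_inj {n : ℕ} {f g : ℕ → ℕ} (hf : ∀ i < n, f i < 2 ^ w) (hg : ∀ i < n, g i < 2 ^ w)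
    (h : pk w n f = pk w n g) : ∀ i < n, f i = g i := by
  induction n generalizing f g with
  | zero => intro i hi; omega
  | succ n ih =>
    rw [pk_succ, pk_succ] at h
    have h0 := hf 0 (Nat.succ_pos _)
    have h1 := hg 0 (Nat.succ_pos _)
    have e0 : f 0 = g 0 := by
      have := congrArg (· % 2 ^ w) h
      simpa [Nat.add_mul_mod_self_left, Nat.mod_eq_of_lt h0, Nat.mod_eq_of_lt h1] using this
    have e1 : pk w n (fun i => f (i + 1)) = pk w n (fun i => g (i + 1)) := by
      rw [e0] at h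
      exact Nat.eq_of_mul_eq_mul_left (by positivity) (Nat.add_left_cancel h)
    intro i hi
    cases i with
    | zero => exact e0
    | succ i =>
      exact ih (fun i hi => hf (i + 1) (Nat.succ_lt_succ hi))
        (fun i hi => hg (i + 1) (Nat.succ_lt_succ hi)) e1 i (Nat.lt_of_succ_lt_succ hi)

/-- The repunit: `n` fields equal to `1`. -/
def rep (w n : ℕ) : ℕ := (2 ^ (w * n) - 1) / (2 ^ w - 1)

theorem rep_eq (hw : 0 < w) (n : ℕ) : rep w n = pk w n (fun _ => 1) := by
  have key : pk w n (fun _ => 1) * (2 ^ w - 1) = 2 ^ (w * n) - 1 := by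
    induction n with
    | zero => simp
    | succ n ih =>
      rw [pk_succ]
      have e : 2 ^ (w * (n + 1)) = 2 ^ w * 2 ^ (w * n) := by rw [← pow_add]; congr 1; ring
      have h1 : 1 ≤ 2 ^ (w * n) := Nat.one_le_two_pow
      have h2 : 1 ≤ 2 ^ w := Nat.one_le_two_pow
      rw [add_mul, one_mul, mul_assoc, ih, e, Nat.mul_sub]
      have h3 : 2 ^ w ≤ 2 ^ w * 2 ^ (w * n) := Nat.le_mul_of_pos_right _ (by positivity)
      omega
  unfold rep
  rw [← key]
  have : 2 ≤ 2 ^ w := by
    calc 2 = 2 ^ 1 := rfl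
      _ ≤ 2 ^ w := Nat.pow_le_pow_right (by norm_num) hw
  exact Nat.mul_div_cancel _ (by omega)

/-- Broadcasting a constant. -/
theorem const_eq (hw : 0 < w) (n c : ℕ) : c * rep w n = pk w n (fun _ => c) := by
  rw [rep_eq hw, pk_mul]
  simp

/-- Tiling: `k` copies of a block of `m` fields. -/
theorem tile_eq (hw : 0 < w) {m : ℕ} (hm : 0 < m) (k : ℕ) (f : ℕ → ℕ) :
    pk w m f * rep (w * m) k = pk w (m * k) (fun i => f (i % m)) := by
  rw [rep_eq (Nat.mul_pos hw hm)]
  induction k with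
  | zero => simp
  | succ k ih =>
    rw [pk_succ, mul_add, mul_one, ← mul_assoc, mul_comm (pk w m f) (2 ^ (w * m)), mul_assoc, ih]
    have e : m * (k + 1) = m + m * k := by ring
    rw [e, pk_append]
    congr 1
    · exact (pk_congr fun i hi => by rw [Nat.mod_eq_of_lt hi]).symm
    · congr 1
      exact pk_congr fun i _ => by rw [Nat.add_mod_left]

end Pk
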