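import Pool.Agent.Lib.Pk.Basic

/-!
# Operations on packed vectors with guard bits

The width is `v + 1`; the top bit of every field is a guard bit, the values are `< 2 ^ v`.
`Rep v n X f`: the number `X` consists of the `n` fields `f 0, …, f (n-1)`, all `< 2 ^ v`.
-/

set_option autoImplicit false

namespace Pk

/-- `X` is the vector with the `n` fields `f i < 2 ^ v`, of width `v + 1`. -/
structure Rep (v n X : ℕ) (f : ℕ → ℕ) : Prop where
  eq : X = pk (v + 1) n f
  lt : ∀ i < n, f i < 2 ^ v

variable {v n : ℕ} {X Y : ℕ} {f g : ℕ → ℕ}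

theorem two_pow_succ' (v : ℕ) : 2 ^ (v + 1) = 2 ^ v + 2 ^ v := by rw [pow_succ]; ring

theorem Rep.lt' (h : Rep v n X f) : ∀ i < n, f i < 2 ^ (v + 1) := fun i hi => by
  have := h.lt i hi
  rw [two_pow_succ']
  omega

theorem Rep.congr (h : Rep v n X f) (e : ∀ i < n, f i = g i) : Rep v n X g :=
  ⟨h.eq.trans (pk_congr e), fun i hi => (e i hi) ▸ h.lt i hi⟩

theorem Rep.unique (h : Rep v n X f) (h' : Rep v n X g) : ∀ i < n, f i = g i :=
  pk_inj h.lt' h'.lt' (h.eq.symm.trans h'.eq)

/-- The vector of guard bits. -/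
def guard (v n : ℕ) : ℕ := 2 ^ v * rep (v + 1) n

theorem guard_eq (v n : ℕ) : guard v n = pk (v + 1) n (fun _ => 2 ^ v) :=
  const_eq (Nat.succ_pos v) n _

/-- The constant vector. -/
def const (v n c : ℕ) : ℕ := c * rep (v + 1) n

theorem Rep.const {c : ℕ} (hc : c < 2 ^ v) : Rep v n (const v n c) (fun _ => c) :=
  ⟨const_eq (Nat.succ_pos v) n _, fun _ _ => hc⟩

theorem Rep.zero : Rep v n 0 (fun _ => 0) := by
  refine ⟨?_, fun _ _ => by positivity⟩
  have := pk_mul (w := v + 1) n 0 (fun _ => 0)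
  simpa using this

theorem Rep.add (hX : Rep v n X f) (hY : Rep v n Y g) (h : ∀ i < n, f i + g i < 2 ^ v) :
    Rep v n (X + Y) (fun i => f i + g i) :=
  ⟨by rw [hX.eq, hY.eq, pk_add], h⟩

/-- The test that a sum does not overflow. -/
theorem Rep.add_of_land (hX : Rep v n X f) (hY : Rep v n Y g)
    (h : (X + Y) &&& guard v n = 0) : Rep v n (X + Y) (fun i => f i + g i) := by
  have e : X + Y = pk (v + 1) n (fun i => f i + g i) := by rw [hX.eq, hY.eq, pk_add]
  have hlt : ∀ i < n, f i + g i < 2 ^ (v + 1) := fun i hi => by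
    have h1 := hX.lt i hi
    have h2 := hY.lt i hi
    rw [two_pow_succ']
    omega
  refine ⟨e, fun i hi => ?_⟩
  rw [e, guard_eq, pk_land hlt (fun i _ => by rw [two_pow_succ']; have : 0 < 2 ^ v := by positivity
                                              omega)] at h
  have h0 : pk (v + 1) n (fun i => (f i + g i) &&& 2 ^ v) = pk (v + 1) n (fun _ => 0) := by
    rw [h]
    exact (Rep.zero (v := v) (n := n)).eq
  have h1 := pk_inj (fun i hi => lt_of_le_of_lt Nat.and_le_left (hlt i hi))
    (fun i _ => by positivity) h0 i hi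
  by_contra hcon
  push Not at hcon
  have h2 : Nat.testBit (f i + g i) v = true := by
    rw [Nat.testBit_eq_decide_div_mod_eq]
    have h3 := hlt i hi
    rw [two_pow_succ'] at h3
    have : (f i + g i) / 2 ^ v = 1 := by
      apply Nat.div_eq_of_lt_le <;> omega
    simp [this]
  have h3 : Nat.testBit ((f i + g i) &&& 2 ^ v) v = true := by
    rw [Nat.testBit_and, h2, Nat.testBit_two_pow_self]
    rfl
  rw [h1] at h3
  simp at h3

theorem Rep.sub (hX : Rep v n X f) (hY : Rep v n Y g) (h : ∀ i < n, g i ≤ f i) :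
    Rep v n (X - Y) (fun i => f i - g i) :=
  ⟨by rw [hX.eq, hY.eq, pk_sub h], fun i hi => lt_of_le_of_lt (Nat.sub_le _ _) (hX.lt i hi)⟩

/-- Fieldwise truncated subtraction. -/
def monus (v G X Y : ℕ) : ℕ :=
  let Z := X + G - Y
  let D := Z &&& G
  Z &&& (D - D >>> v)

theorem land_two_pow_of_lt {a v : ℕ} (h : a < 2 ^ (v + 1)) :
    a &&& 2 ^ v = if 2 ^ v ≤ a then 2 ^ v else 0 := by
  apply Nat.eq_of_testBit_eq
  intro i
  rw [Nat.testBit_and]
  by_cases hi : i = v
  · subst hi
    split_ifs with h1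
    · have : Nat.testBit a i = true := by
        rw [Nat.testBit_eq_decide_div_mod_eq]
        rw [two_pow_succ'] at h
        have : a / 2 ^ i = 1 := by apply Nat.div_eq_of_lt_le <;> omega
        simp [this]
      rw [this, Nat.testBit_two_pow_self]; rfl
    · have : Nat.testBit a i = false := by
        apply Nat.testBit_lt_two_pow
        omega
      rw [this]; simp
  · rw [Nat.testBit_two_pow_of_ne (by omega)]
    split_ifs
    · rw [Nat.testBit_two_pow_of_ne (by omega)]; simp
    · simp

theorem diff_parts (hX : Rep v n X f) (hY : Rep v n Y g) :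
    X + guard v n - Y = pk (v + 1) n (fun i => f i + 2 ^ v - g i) ∧
    (X + guard v n - Y) &&& guard v n = 2 ^ v * pk (v + 1) n (fun i => if g i ≤ f i then 1 else 0) := by
  have h1 : X + guard v n - Y = pk (v + 1) n (fun i => f i + 2 ^ v - g i) := by
    rw [hX.eq, hY.eq, guard_eq, pk_add, pk_sub]
    intro i hi
    have := hY.lt i hi
    omega
  refine ⟨h1, ?_⟩
  have hz : ∀ i < n, f i + 2 ^ v - g i < 2 ^ (v + 1) := fun i hi => by
    have := hX.lt i hi
    rw [two_pow_succ']
    omega
  rw [h1, guard_eq, pk_land hz (fun i _ => by rw [two_pow_succ']; have : 0 < 2 ^ v := by positivity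
                                              omega), pk_mul]
  apply pk_congr
  intro i hi
  rw [land_two_pow_of_lt (hz i hi)]
  have := hY.lt i hi
  by_cases h : g i ≤ f i
  · rw [if_pos h, if_pos (by omega), mul_one]
  · rw [if_neg h, if_neg (by omega), mul_zero]

theorem Rep.monus (hX : Rep v n X f) (hY : Rep v n Y g) :
    Rep v n (monus v (guard v n) X Y) (fun i => f i - g i) := by
  obtain ⟨h1, h2⟩ := diff_parts hX hY
  refine ⟨?_, fun i hi => lt_of_le_of_lt (Nat.sub_le _ _) (hX.lt i hi)⟩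
  unfold Pk.monus
  simp only
  have h3 : (2 ^ v * pk (v + 1) n (fun i => if g i ≤ f i then 1 else 0)) >>> v
      = pk (v + 1) n (fun i => if g i ≤ f i then 1 else 0) := by
    rw [Nat.shiftRight_eq_div_pow, Nat.mul_div_cancel_left _ (by positivity)]
  rw [h2, h3, pk_mul, pk_sub, h1, pk_land]
  · apply pk_congr
    intro i hi
    have hf := hX.lt i hi
    have hg := hY.lt i hi
    by_cases h : g i ≤ f i
    · simp only [if_pos h, mul_one]
      rw [Nat.and_two_pow_sub_one_eq_mod]
      have : f i + 2 ^ v - g i = (f i - g i) + 2 ^ v := by omega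
      rw [this, Nat.add_mod_right]
      exact Nat.mod_eq_of_lt (by omega)
    · simp only [if_neg h, mul_zero, Nat.sub_self, Nat.and_zero]
      omega
  · intro i hi
    have := hX.lt i hi
    rw [two_pow_succ']
    omega
  · intro i hi
    rw [two_pow_succ']
    have : 0 < 2 ^ v := by positivity
    split_ifs <;> omega
  · intro i hi
    have : 0 < 2 ^ v := by positivity
    split_ifs <;> omega

/-- Fieldwise maximum. -/
def vmax (v G X Y : ℕ) : ℕ := Y + monus v G X Y

theorem Rep.vmax (hX : Rep v n X f) (hY : Rep v n Y g) :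
    Rep v n (vmax v (guard v n) X Y) (fun i => max (f i) (g i)) := by
  have h : ∀ i < n, g i + (f i - g i) = max (f i) (g i) := fun i _ => by omega
  refine (Rep.add hY (hX.monus hY) fun i hi => ?_).congr h
  rw [h i hi]
  exact max_lt (hX.lt i hi) (hY.lt i hi)

/-- Fieldwise minimum. -/
def vmin (v G X Y : ℕ) : ℕ := X - monus v G X Y

theorem Rep.vmin (hX : Rep v n X f) (hY : Rep v n Y g) :
    Rep v n (vmin v (guard v n) X Y) (fun i => min (f i) (g i)) := by
  refine (Rep.sub hX (hX.monus hY) fun i hi => ?_).congr fun i _ => ?_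
  · exact Nat.sub_le _ _
  · omega

/-- Fieldwise test `X ≤ Y`. -/
def vle (G X Y : ℕ) : Bool := Nat.beq ((Y + G - X) &&& G) G

theorem Rep.vle (hX : Rep v n X f) (hY : Rep v n Y g) (h : vle (guard v n) X Y = true) :
    ∀ i < n, f i ≤ g i := by
  have h' : (Y + guard v n - X) &&& guard v n = guard v n := Nat.eq_of_beq_eq_true h
  rw [(diff_parts hY hX).2] at h'
  have h1 : guard v n = 2 ^ v * pk (v + 1) n (fun _ => 1) := by
    rw [guard_eq, pk_mul]; simp
  rw [h1] at h'
  have h2 := Nat.eq_of_mul_eq_mul_left (by positivity) h'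
  have hp : 1 < 2 ^ (v + 1) := Nat.one_lt_two_pow (Nat.succ_ne_zero v)
  have h3 := pk_inj (fun i _ => by split_ifs <;> omega) (fun i _ => hp) h2
  intro i hi
  have := h3 i hi
  by_contra hcon
  rw [if_neg hcon] at this
  omega

/-- A block of fields. -/
def block (v s m X : ℕ) : ℕ := (X >>> ((v + 1) * s)) % 2 ^ ((v + 1) * m)

theorem Rep.block (hX : Rep v n X f) {s m : ℕ} (h : s + m ≤ n) :
    Rep v m (block v s m X) (fun i => f (s + i)) := by
  refine ⟨?_, fun i hi => hX.lt _ (by omega)⟩
  unfold Pk.block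
  obtain ⟨k, rfl⟩ := Nat.exists_eq_add_of_le (show s ≤ n by omega)
  rw [Nat.shiftRight_eq_div_pow, hX.eq, pk_div (fun i hi => hX.lt' i (by omega)),
    pk_mod (fun i hi => hX.lt' _ (by omega)) (by omega)]

/-- Dropping the first `s` fields, keeping the number of fields. -/
theorem Rep.shiftRight (hX : Rep v n X f) (s : ℕ) (h : s ≤ n) :
    Rep v (n - s) (X >>> ((v + 1) * s)) (fun i => f (s + i)) := by
  refine ⟨?_, fun i hi => hX.lt _ (by omega)⟩
  obtain ⟨k, rfl⟩ := Nat.exists_eq_add_of_le h
  rw [Nat.shiftRight_eq_div_pow, hX.eq, pk_div (fun i hi => hX.lt' i (by omega)),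
    Nat.add_sub_cancel_left]

theorem Rep.take (hX : Rep v n X f) {m : ℕ} (h : m ≤ n) :
    Rep v m (X % 2 ^ ((v + 1) * m)) f := by
  refine ⟨?_, fun i hi => hX.lt _ (by omega)⟩
  rw [hX.eq, pk_mod (fun i hi => hX.lt' _ (by omega)) h]

/-- Concatenation. -/
theorem Rep.append {m : ℕ} (hX : Rep v m X f) (hY : Rep v n Y g) :
    Rep v (m + n) (X + Y <<< ((v + 1) * m)) (fun i => if i < m then f i else g (i - m)) := by
  refine ⟨?_, fun i hi => ?_⟩
  · rw [Nat.shiftLeft_eq, pk_append, mul_comm Y, hX.eq, hY.eq]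
    congr 1
    · exact pk_congr fun i hi => by rw [if_pos hi]
    · congr 1
      exact pk_congr fun i hi => by rw [if_neg (by omega), Nat.add_sub_cancel_left]
  · by_cases h : i < m
    · simp only [if_pos h]; exact hX.lt i h
    · simp only [if_neg h]; exact hY.lt _ (by omega)

/-- Repeating a vector of `m` fields `k` times (broadcast along a new outer axis). -/
theorem Rep.tile {m : ℕ} (hm : 0 < m) (hX : Rep v m X f) (k : ℕ) :
    Rep v (m * k) (X * rep ((v + 1) * m) k) (fun i => f (i % m)) :=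
  ⟨by rw [hX.eq, tile_eq (Nat.succ_pos v) hm], fun i _ => hX.lt _ (Nat.mod_lt _ hm)⟩

end Pk
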